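import Pool.Agent.Helper1.RG.Defs

/-! Row Q3 of the project RG (helper12). -/

set_option autoImplicit false

open MeasureTheory Complex
open scoped ComplexConjugate

namespace Pool.Agent.Helper12.RG

open Pool.Agent.Helper1.RG

theorem e_add (T x y : ℂ) : e T (x + y) = e T x * e T y := by
  unfold e
  rw [mul_add, Complex.add_re, Circle.exp_add]

theorem norm_gb_sq : ‖gb‖ ^ 2 = 5 := by
  rw [gb, Complex.sq_norm, Complex.normSq_apply]
  norm_num

theorem norm_gb_gt : 1 < ‖gb‖ := by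
  have h := norm_gb_sq
  by_contra h1
  have h2 : ‖gb‖ ≤ 1 := not_lt.1 h1
  have h3 : 0 ≤ ‖gb‖ := norm_nonneg _
  nlinarith

theorem gb_ne : gb ≠ 0 := by
  intro h
  have h1 := norm_gb_gt
  rw [h, norm_zero] at h1
  linarith

theorem zi_op {z : ℂ} (hz : z ∈ ZI) : z ∈ OP := ⟨0, by rwa [pow_zero, one_mul]⟩

theorem zi_div_op {z : ℂ} (hz : z ∈ ZI) (j : ℕ) : z / gb ^ j ∈ OP :=
  ⟨j, by
    have h : gb ^ j * (z / gb ^ j) = z := by
      field_simp [pow_ne_zero j gb_ne]
    rwa [h]⟩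

theorem zi_int_mul {z : ℂ} (hz : z ∈ ZI) (u : ℤ) : (u : ℂ) * z ∈ ZI := by
  obtain ⟨a, b, rfl⟩ := hz
  refine ⟨u * a, u * b, ?_⟩
  push_cast
  ring

theorem op_int_mul {z : ℂ} (hz : z ∈ OP) (u : ℤ) : (u : ℂ) * z ∈ OP := by
  obtain ⟨j, hj⟩ := hz
  refine ⟨j, ?_⟩
  have h := zi_int_mul hj u
  have e1 : gb ^ j * ((u : ℂ) * z) = (u : ℂ) * (gb ^ j * z) := by ring
  rwa [e1]

/-- a real number of size less than `2 π` with trivial character -/
theorem small_zero {x : ℝ} (h : Circle.exp x = 1) (hx : |x| < 2 * Real.pi) : x = 0 := by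
  rw [← Circle.exp_zero, Circle.exp_eq_exp] at h
  obtain ⟨n, hn⟩ := h
  rw [zero_add] at hn
  have hpi := Real.pi_pos
  rw [hn, abs_mul, abs_of_pos (by linarith : 0 < 2 * Real.pi)] at hx
  have h1 : |(n : ℝ)| < 1 := by
    by_contra h2
    have h3 := mul_le_mul_of_nonneg_right (not_lt.1 h2) (by linarith : 0 ≤ 2 * Real.pi)
    linarith
  have h2 : |n| < 1 := by exact_mod_cast h1
  rw [hn, Int.abs_lt_one_iff.1 h2]
  simp

/-- two characters `e_T` which agree on `m OP` are equal -/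
theorem e_unique (T T' : ℂ) (m : ℕ) (hm : 1 ≤ m)
    (h : ∀ z ∈ OP, e T (m * z) = e T' (m * z)) : T = T' := by
  set S : ℂ := conj (T - T') * m with hS
  have hmC : (m : ℂ) ≠ 0 := by exact_mod_cast (by omega : m ≠ 0)
  suffices hS0 : S = 0 by
    have h1 : conj (T - T') = 0 := (mul_eq_zero.1 hS0).resolve_right hmC
    have h2 : T - T' = 0 := by
      have := congrArg conj h1
      simpa using this
    exact sub_eq_zero.1 h2
  obtain ⟨j, hj⟩ := pow_unbounded_of_one_lt (‖S‖ / (2 * Real.pi)) norm_gb_gt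
  have hpi := Real.pi_pos
  have hgj : 0 < ‖gb‖ ^ j := pow_pos (by linarith [norm_gb_gt]) j
  have hsmall : ‖S / gb ^ j‖ < 2 * Real.pi := by
    rw [norm_div, norm_pow, div_lt_iff₀ hgj]
    rw [div_lt_iff₀ (by linarith)] at hj
    linarith
  have key : ∀ w ∈ ZI, ‖w‖ = 1 → (S / gb ^ j * w).re = 0 := by
    intro w hw hw1
    have h1 := h (w / gb ^ j) (zi_div_op hw j)
    unfold e at h1
    have h2 : Circle.exp ((S / gb ^ j * w).re) = 1 := by
      have e1 : (S / gb ^ j * w).re =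
          (conj T * ((m : ℂ) * (w / gb ^ j))).re - (conj T' * ((m : ℂ) * (w / gb ^ j))).re := by
        rw [← Complex.sub_re]
        congr 1
        rw [hS, map_sub]
        ring
      rw [e1, Circle.exp_sub, h1, div_self']
    refine small_zero h2 ?_
    calc |(S / gb ^ j * w).re| ≤ ‖S / gb ^ j * w‖ := Complex.abs_re_le_norm _
      _ = ‖S / gb ^ j‖ := by rw [norm_mul, hw1, mul_one]
      _ < 2 * Real.pi := hsmall
  have k1 := key 1 ⟨1, 0, by simp⟩ norm_one
  have k2 := key I ⟨0, 1, by simp⟩ Complex.norm_I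
  rw [mul_one] at k1
  have k3 : (S / gb ^ j).im = 0 := by
    rw [Complex.mul_re, Complex.I_re, Complex.I_im, mul_zero, mul_one, zero_sub] at k2
    linarith
  have k4 : S / gb ^ j = 0 := Complex.ext k1 k3
  exact (div_eq_zero_iff.1 k4).resolve_right (pow_ne_zero j gb_ne)

theorem e_nat_mul (T z : ℂ) (n : ℕ) : e T ((n : ℂ) * z) = e ((n : ℂ) * T) z := by
  unfold e
  congr 2
  rw [map_mul, Complex.conj_natCast]
  ring

/-- row Q3 -/
theorem st_Q3 : ST_Q3 := by
  intro χ m hm hχ hq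
  obtain ⟨T, hT⟩ := hχ
  refine ⟨T, ?_⟩
  have hmC : (m : ℂ) ≠ 0 := by exact_mod_cast (by omega : m ≠ 0)
  -- prime powers
  have hpp : ∀ q : ℕ, q.Prime → ∀ k : ℕ, ∀ z ∈ OP,
      χ (1 / ((q ^ k : ℕ) : ℂ) * (m * z)) = e T (1 / ((q ^ k : ℕ) : ℂ) * (m * z)) := by
    intro q hqp k z hz
    obtain ⟨T', hT'⟩ := hq q hqp k
    have hq0 : ((q : ℂ) ^ k) ≠ 0 := pow_ne_zero k (by exact_mod_cast hqp.ne_zero)
    have h1 : T = ((q ^ k : ℕ) : ℂ) * T' := by
      refine e_unique _ _ m hm fun w hw => ?_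
      have h2 := hT' (((q ^ k : ℕ) : ℤ) * w) (op_int_mul hw _)
      have e1 : 1 / (q : ℂ) ^ k * ((m : ℂ) * ((((q ^ k : ℕ) : ℤ) : ℂ) * w)) = (m : ℂ) * w := by
        push_cast
        field_simp
      have e2 : (m : ℂ) * ((((q ^ k : ℕ) : ℤ) : ℂ) * w) = ((q ^ k : ℕ) : ℂ) * ((m : ℂ) * w) := by
        push_cast
        ring
      rw [e1, e2, e_nat_mul, hT w hw] at h2
      exact h2
    have h3 := hT' z hz
    rw [Nat.cast_pow, h3, h1, ← Nat.cast_pow, ← e_nat_mul]
    congr 1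
    push_cast
    field_simp
  -- all denominators
  have hall : ∀ D : ℕ, 1 ≤ D → ∀ z ∈ OP,
      χ (1 / (D : ℂ) * (m * z)) = e T (1 / (D : ℂ) * (m * z)) := by
    intro D
    induction D using Nat.recOnPosPrimePosCoprime with
    | prime_pow q k hqp hk =>
      intro _ z hz
      exact hpp q hqp k z hz
    | zero => intro h; omega
    | one =>
      intro _ z hz
      rw [Nat.cast_one, div_one, one_mul]
      exact hT z hz
    | coprime a b ha hb hab iha ihb =>
      intro _ z hz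
      have hcop : IsCoprime (a : ℤ) (b : ℤ) := Nat.isCoprime_iff_coprime.2 hab
      obtain ⟨u, v, huv⟩ := hcop
      have huvC : (u : ℂ) * (a : ℂ) + (v : ℂ) * (b : ℂ) = 1 := by exact_mod_cast congrArg (Int.cast : ℤ → ℂ) huv
      have ha0 : (a : ℂ) ≠ 0 := by exact_mod_cast (by omega : a ≠ 0)
      have hb0 : (b : ℂ) ≠ 0 := by exact_mod_cast (by omega : b ≠ 0)
      have e1 : 1 / ((a * b : ℕ) : ℂ) * ((m : ℂ) * z) =
          1 / (b : ℂ) * ((m : ℂ) * ((u : ℂ) * z)) + 1 / (a : ℂ) * ((m : ℂ) * ((v : ℂ) * z)) := by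
        push_cast
        field_simp
        linear_combination (-z) * huvC
      rw [e1, AddChar.map_add_eq_mul, e_add, ihb (by omega) _ (op_int_mul hz u),
        iha (by omega) _ (op_int_mul hz v)]
  intro x hx
  obtain ⟨a, b, rfl⟩ := hx
  have hD : 1 ≤ a.den * b.den * m := by
    have h1 := a.den_pos
    have h2 := b.den_pos
    have := Nat.mul_pos (Nat.mul_pos h1 h2) (by omega : 0 < m)
    omega
  have hz : ((a.num * b.den : ℤ) : ℂ) + ((b.num * a.den : ℤ) : ℂ) * I ∈ OP :=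
    zi_op ⟨a.num * b.den, b.num * a.den, rfl⟩
  have h1 := hall _ hD _ hz
  have hx : 1 / ((a.den * b.den * m : ℕ) : ℂ) *
      ((m : ℂ) * (((a.num * b.den : ℤ) : ℂ) + ((b.num * a.den : ℤ) : ℂ) * I)) = a + b * I := by
    have ha0 : (a.den : ℂ) ≠ 0 := by exact_mod_cast a.den_pos.ne'
    have hb0 : (b.den : ℂ) ≠ 0 := by exact_mod_cast b.den_pos.ne'
    have ea : (a : ℂ) = a.num / a.den := by exact_mod_cast (congrArg (Rat.cast : ℚ → ℂ) (Rat.num_div_den a)).symm
    have eb : (b : ℂ) = b.num / b.den := by exact_mod_cast (congrArg (Rat.cast : ℚ → ℂ) (Rat.num_div_den b)).symm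
    rw [ea, eb]
    push_cast
    field_simp
  rw [hx] at h1
  exact h1

end Pool.Agent.Helper12.RG
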